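import Pool.Agent.helper17.EXT.SpecJ

set_option autoImplicit false

open Finset

namespace Pool.Agent.EXT

open Pool.Agent.EXC

theorem JSH_fin : ∀ γ ∈ RL, pv γ ≠ γ → ∃ β ∈ RL, pv β = β ∧ ip C6 γ β = -1 := by
  decide +kernel

theorem JSH_LT {K : Type} [Field K] (hRTF : RTF_stmt) (β : Fin 6 → ℤ) (hβ : LR β) :
    (E C6 β : Lm C6 K) ∈ LT (RingEquiv.refl K) := by
  obtain ⟨-, hpp, -, -, -, -, -, -, -, -, hsn, -⟩ := hRTF
  show si (RingEquiv.refl K) (E C6 β) = E C6 β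
  unfold si
  refine Prod.ext ?_ ?_
  · funext i
    simp [E_fst]
  · funext γ
    have h1 : (E C6 β : Lm C6 K).2 γ = if γ.1 = β then 1 else 0 := by
      rw [← cf_E (F := K) C6 hβ.1 γ.1]
      unfold cf
      rw [dif_pos γ.2]
    rw [h1]
    show ((sn γ.1 : ℤ) : K) * (RingEquiv.refl K) (cf (E C6 β : Lm C6 K) (pv γ.1)) = _
    rw [cf_E C6 hβ.1]
    by_cases h : γ.1 = β
    · have h2 : pv γ.1 = β := by rw [h]; exact hβ.2
      rw [if_pos h, if_pos h2, h, hsn β hβ.2]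
      simp
    · have h2 : pv γ.1 ≠ β := by
        intro h3
        apply h
        rw [← hpp γ.1, h3]
        exact hβ.2
      rw [if_neg h, if_neg h2]
      simp

theorem JSH_sg {K : Type} [Field K] (v w : Fin 6 → ℤ) : ((sg C6 v w : ℤ) : K) ≠ 0 := by
  unfold sg
  split_ifs <;> simp

theorem JSH (hLST : LST_stmt) (hRTF : RTF_stmt) (hSGR : SGR_stmt) (hGFX : GFX_stmt)
    (hACS : ACS_stmt) : JSH_stmt := by
  intro K _ h2 h hh γ hγ
  have hrefl : ∀ x : K, (RingEquiv.refl K) ((RingEquiv.refl K) x) = x := fun x => rfl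
  obtain ⟨sg1, -, sg3, sg4, -, -⟩ := hSGR K (RingEquiv.refl K) hrefl
  obtain ⟨gf1, -⟩ := hGFX K (RingEquiv.refl K) hrefl
  have hRTF' := hRTF
  obtain ⟨hip, hpp, -⟩ := hRTF'
  have hzero : ∀ g : Lm C6 K ≃ₗ[K] Lm C6 K, IsS (RingEquiv.refl K) γ 0 g → ∀ v, g v = v := by
    intro g hg v
    rw [hg v]
    have e1 : (RingEquiv.refl K) (0 : K) = 0 := rfl
    rw [e1, mul_zero]
    unfold xe
    simp
  refine ⟨?_, ?_, ?_, ?_, ?_, ?_, ?_⟩
  · intro t
    obtain ⟨g, hg, hgt⟩ := sg1 γ t hγ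
    obtain ⟨f, hf, hfv⟩ := gf1 (h * g * h⁻¹) (mul_mem (mul_mem hh hg) (inv_mem hh))
    exact ⟨f, hf, g, hg, hgt, fun v => hfv v⟩
  · rintro f ⟨t, g, hgt, hfv⟩
    exact ⟨h * g * h⁻¹, mul_mem (mul_mem hh (sg4 γ t g hγ hgt).2) (inv_mem hh), fun v => hfv v⟩
  · rintro f f' ⟨s, g, hgs, hf⟩ ⟨t, g', hgt, hf'⟩
    refine ⟨s + t, g * g', sg3 γ s t g g' hγ hgs hgt, fun v => ?_⟩
    rw [Equiv.Perm.mul_apply, hf, hf']
    show h (g (h⁻¹ (h (g' (h⁻¹ (v : Lm C6 K)))))) = h (g (g' (h⁻¹ (v : Lm C6 K))))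
    have e : ∀ w : Lm C6 K, h⁻¹ (h w) = w := fun w => LinearEquiv.symm_apply_apply h w
    rw [e]
  · rintro f ⟨t, g, hgt, hf⟩
    have hgg := sg3 γ t t g g hγ hgt hgt
    have e1 : t + t = 0 := by rw [← two_mul, h2, zero_mul]
    rw [e1] at hgg
    have hgg1 := hzero (g * g) hgg
    apply Equiv.ext
    intro v
    apply Subtype.ext
    rw [Equiv.Perm.mul_apply, hf, hf]
    show h (g (h⁻¹ (h (g (h⁻¹ (v : Lm C6 K)))))) = (v : Lm C6 K)
    have e : ∀ w : Lm C6 K, h⁻¹ (h w) = w := fun w => LinearEquiv.symm_apply_apply h w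
    have e' : ∀ w : Lm C6 K, h (h⁻¹ w) = w := fun w => LinearEquiv.apply_symm_apply h w
    rw [e]
    have e2 : g (g (h⁻¹ (v : Lm C6 K))) = h⁻¹ (v : Lm C6 K) := hgg1 _
    rw [e2, e']
  · rintro f ⟨t, g, hgt, hf⟩ f₀ hf₀ k hk hkv
    refine ⟨t, g, hgt, fun v => ?_⟩
    rw [Equiv.Perm.mul_apply, Equiv.Perm.mul_apply, hkv, hf]
    have e1 : ((f₀⁻¹ v : LT (RingEquiv.refl K)) : Lm C6 K) = k⁻¹ (v : Lm C6 K) := by
      have e2 := hkv (f₀⁻¹ v)
      have e3 : f₀ (f₀⁻¹ v) = v := f₀.apply_symm_apply v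
      rw [e3] at e2
      rw [e2]
      exact (LinearEquiv.symm_apply_apply k _).symm
    rw [e1]
    have e4 : (k * h)⁻¹ = h⁻¹ * k⁻¹ := mul_inv_rev k h
    rw [e4]
    rfl
  · intro f
    have hγ' : SR (pv γ) := ⟨by rw [hip]; exact hγ.1, fun h0 => hγ.2 (by rw [hpp] at h0; exact h0.symm)⟩
    constructor
    · rintro ⟨t, g, hgt, hf⟩
      exact ⟨_, g, (sg4 γ t g hγ hgt).1, hf⟩
    · rintro ⟨t, g, hgt, hf⟩
      have h3 := (sg4 (pv γ) t g hγ' hgt).1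
      rw [hpp] at h3
      exact ⟨_, g, h3, hf⟩
  · intro s t g g' hg hg' hgg
    obtain ⟨β, hβR, hβ1, hβ2⟩ := JSH_fin γ ((hLST γ).mp hγ.1) hγ.2
    have hβ : LR β := ⟨(hLST β).mpr hβR, hβ1⟩
    have hE := JSH_LT (K := K) hRTF β hβ
    have h3 := hgg _ hE
    obtain ⟨-, -, -, h4⟩ := hACS K (RingEquiv.refl K) hrefl γ β hγ hβ
    have h5 := ((h4 s g hg).2 hβ2).2
    have h6 := ((h4 t g' hg').2 hβ2).2
    have hroot : ip C6 (γ + β) (γ + β) = 2 := by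
      rw [ip_add_left, ip_add_right, ip_add_right, ip_comm C6 β γ, hγ.1, hβ.1, hβ2]; norm_num
    have hcf : ∀ w : Fin 6 → ℤ, w ≠ γ + β → cf (E C6 w : Lm C6 K) (γ + β) = 0 := by
      intro w hw
      by_cases h8 : ip C6 w w = 2
      · rw [cf_E C6 h8, if_neg (fun h9 => hw h9.symm)]
      · rw [E_eq_zero C6 h8, cf_zero]
    have hγ0 : γ ≠ 0 := by
      intro h9
      have := hγ.1
      rw [h9] at this
      simp [ip] at this
    have hp0 : pv γ ≠ 0 := by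
      intro h9
      apply hγ0
      rw [← hpp γ, h9]
      funext i
      rfl
    have hn1 : β ≠ γ + β := fun h9 => hγ0 (by simpa using h9.symm)
    have hn2 : pv γ + β ≠ γ + β := fun h9 => hγ.2 (add_right_cancel h9)
    have hn3 : γ + pv γ + β ≠ γ + β := fun h9 => hp0 (by simpa using add_right_cancel h9)
    have hc : ∀ (r : K) (k : Lm C6 K ≃ₗ[K] Lm C6 K),
        k (E C6 β) = (E C6 β + (r * (sg C6 γ β : K)) • E C6 (γ + β) +
          ((sn γ : K) * (RingEquiv.refl K) r * (sg C6 (pv γ) β : K)) • E C6 (pv γ + β) +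
          (r * ((sn γ : K) * (RingEquiv.refl K) r) * (sg C6 (pv γ) β : K) *
            (sg C6 γ (pv γ + β) : K)) • E C6 (γ + pv γ + β) : Lm C6 K) →
        cf (k (E C6 β)) (γ + β) = r * ((sg C6 γ β : ℤ) : K) := by
      intro r k hk
      rw [hk, cf_add, cf_add, cf_add, cf_smul, cf_smul, cf_smul, hcf β hn1, hcf _ hn2, hcf _ hn3,
        cf_E C6 hroot, if_pos rfl]
      ring
    have h10 := hc s g h5
    have h11 := hc t g' h6
    rw [h3, h11] at h10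
    exact (mul_right_cancel₀ (JSH_sg γ β) h10).symm

end Pool.Agent.EXT
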